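import Pool.Agent.H84.SF.Geo

/-!
Board sfc_modules, row EPS: the value of an element of the local ring at `s`.
-/

set_option autoImplicit false

namespace Pool.Agent.H56.SF

open MvPolynomial
open Pool.Agent.H84.SF

section

variable {k F σ : Type} [Field k] [Field F] [Algebra k F] {Xc : σ → F} {s : σ → k}

/-- two representations have the same value -/
theorem rep_eq (hc : Cone Xc s) {z : F} {d d' : ℕ} {a b a' b' : MvPolynomial σ k}
    (h : Rep Xc z d a b) (h' : Rep Xc z d' a' b') : eval s a * eval s b' = eval s a' * eval s b := by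
  have h1 : aeval Xc (a * b' - a' * b) = 0 := by
    rw [map_sub, map_mul, map_mul, ← h.2.2, ← h'.2.2]
    ring
  have h2 := hc.pt _ h1
  rw [map_sub, map_mul, map_mul, sub_eq_zero] at h2
  exact h2

end

theorem pf_EPS : T_EPS := by
  intro k F σ _ _ _ Xc s hc
  have hex : ∀ h : Os Xc s, ∃ c : k, ∀ (d : ℕ) (a b : MvPolynomial σ k), Rep Xc (h : F) d a b →
      c * eval s b = eval s a := by
    rintro ⟨z, d, a, b, hr, hb⟩
    refine ⟨eval s a / eval s b, fun d' a' b' h' => ?_⟩
    have h1 := rep_eq hc hr h'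
    rw [div_mul_eq_mul_div, h1, mul_div_assoc, div_self hb, mul_one]
  choose e he using hex
  have huniq : ∀ (h : Os Xc s) (c : k) (d : ℕ) (a b : MvPolynomial σ k), Rep Xc (h : F) d a b →
      eval s b ≠ 0 → c * eval s b = eval s a → e h = c := by
    intro h c d a b hr hb h1
    exact mul_right_cancel₀ hb ((he h d a b hr).trans h1.symm)
  have h1 : e 1 = 1 := by
    refine huniq 1 1 0 1 1 ⟨isHomogeneous_one _ _, isHomogeneous_one _ _, ?_⟩ ?_ ?_
    · rw [map_one, mul_one]
      rfl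
    · rw [map_one]
      exact one_ne_zero
    · rw [map_one, mul_one]
  have h0 : e 0 = 0 := by
    refine huniq 0 0 0 0 1 ⟨isHomogeneous_zero _ _ _, isHomogeneous_one _ _, ?_⟩ ?_ ?_
    · rw [map_one, map_zero, mul_one]
      rfl
    · rw [map_one]
      exact one_ne_zero
    · rw [map_one, map_zero, mul_one]
  have hmul : ∀ h h' : Os Xc s, e (h * h') = e h * e h' := by
    intro h h'
    obtain ⟨d, a, b, hr, hb⟩ := h.2
    obtain ⟨d', a', b', hr', hb'⟩ := h'.2
    refine huniq _ _ (d + d') (a * a') (b * b') ⟨hr.1.mul hr'.1, hr.2.1.mul hr'.2.1, ?_⟩ ?_ ?_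
    · rw [map_mul, map_mul, ← hr.2.2, ← hr'.2.2]
      change (h : F) * (h' : F) * _ = _
      ring
    · rw [map_mul]
      exact mul_ne_zero hb hb'
    · rw [map_mul, map_mul, ← he h d a b hr, ← he h' d' a' b' hr']
      ring
  have hadd : ∀ h h' : Os Xc s, e (h + h') = e h + e h' := by
    intro h h'
    obtain ⟨d, a, b, hr, hb⟩ := h.2
    obtain ⟨d', a', b', hr', hb'⟩ := h'.2
    refine huniq _ _ (d + d') (a * b' + b * a') (b * b')
      ⟨(hr.1.mul hr'.2.1).add (hr.2.1.mul hr'.1), hr.2.1.mul hr'.2.1, ?_⟩ ?_ ?_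
    · rw [map_mul, map_add, map_mul, map_mul, ← hr.2.2, ← hr'.2.2]
      change ((h : F) + (h' : F)) * _ = _
      ring
    · rw [map_mul]
      exact mul_ne_zero hb hb'
    · rw [map_mul, map_add, map_mul, map_mul, ← he h d a b hr, ← he h' d' a' b' hr']
      ring
  have hcom : ∀ c : k, e (algebraMap k (Os Xc s) c) = algebraMap k k c := by
    intro c
    refine huniq _ _ 0 (C c) 1 ⟨isHomogeneous_C _ _, isHomogeneous_one _ _, ?_⟩ ?_ ?_
    · rw [map_one, mul_one, algHom_C]
      rfl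
    · rw [map_one]
      exact one_ne_zero
    · rw [map_one, mul_one, eval_C]
      rfl
  refine ⟨{ toFun := e, map_one' := h1, map_mul' := hmul, map_zero' := h0, map_add' := hadd,
            commutes' := hcom }, fun h hne => ?_, he⟩
  obtain ⟨d, a, b, hr, hb⟩ := h.2
  have h2 : e h * eval s b = eval s a := he h d a b hr
  have h3 : eval s a ≠ 0 := by
    rw [← h2]
    exact mul_ne_zero hne hb
  have h4 : aeval Xc a ≠ 0 := fun h5 => h3 (hc.pt a h5)
  have h5 : (h : F) ≠ 0 := by
    intro h6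
    have h7 := hr.2.2
    rw [h6, zero_mul] at h7
    exact h4 h7.symm
  have h6 : ((h : F))⁻¹ ∈ Os Xc s := by
    refine ⟨d, b, a, ⟨hr.2.1, hr.1, ?_⟩, h3⟩
    rw [← hr.2.2, ← mul_assoc, inv_mul_cancel₀ h5, one_mul]
  refine IsUnit.of_mul_eq_one (⟨_, h6⟩ : Os Xc s) (Subtype.ext ?_)
  exact mul_inv_cancel₀ h5

end Pool.Agent.H56.SF
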