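import Pool.Agent.H77.SF.KT2

/-!
# MP_3b3fc8_lc, module KVD: codes of small frames are elements of the small model
-/

set_option linter.unusedVariables false

open Ordinal Cardinal Order Set
open scoped ZFSet

namespace SF.H56

open SF

/-- countable sets have cardinality at most the cardinality of `ω` -/
theorem kvd_card {x : V} (hx : (x : Set V).Countable) : x.card ≤ om.card := by
  have h1 : om.card = ℵ₀ := by
    unfold om
    rw [Ordinal.card_toZFSet, Ordinal.card_omega0]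
  rw [h1]
  have h2 : #x ≤ ℵ₀ := Cardinal.le_aleph0_iff_set_countable.2 hx
  rw [ZFSet.cardinalMk_coe_sort, Cardinal.lift_le_aleph0] at h2
  exact h2

/-- KVD. Codes of small frames are elements. -/
theorem kvd (hKVC : T_KVC) (hKM : T_KM) : T_KVD := by
  intro κ' κ lam' lam j e A C h p F hA hN
  have k : ZFm (· ∈ V_ lam') := (hKM κ' κ lam' lam j e).1.1
  have htr : ∀ x ∈ V_ lam', ∀ y ∈ x, y ∈ V_ lam' := fun x hx y hy => k.trans x hx y hy
  have hprod : ∀ x ∈ V_ lam', ∀ y ∈ V_ lam', ZFSet.prod x y ∈ V_ lam' := by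
    intro x hx y hy
    have h1 := (Tm.prod (Tm.var 0) (Tm.var 1)).1 (· ∈ V_ lam') k (cons x fun _ => y) (fun i => by
      cases i with
      | zero => exact hx
      | succ i => exact hy)
    exact h1
  have hN' : F.N' ∈ V_ lam' :=
    hKVC κ' κ lam' lam j e om k.inf F.N' F.np.full.1 (kvd_card F.np.ctb)
  have hdom : ∀ x y, F.σ x y = F.b → x ∈ V_ lam' := fun x y hxy =>
    htr _ hN' x (F.map.dom x y (by rw [hxy]; exact F.ne)).1
  refine ⟨hN', htr _ hA _ F.b.mem, ?_, hdom _ _ F.kw, hdom _ _ F.kB, hdom _ _ F.kC,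
    hdom _ _ F.kh, hdom _ _ F.kp, ?_⟩
  · refine ZFSet.mem_vonNeumann_of_subset (y := ZFSet.prod (ZFSet.prod F.N' F.N) A.B) ?_
      (hprod _ (hprod _ hN' _ hN) _ hA)
    intro z hz
    unfold cS at hz
    obtain ⟨q, hq, rfl⟩ := mem_resS.1 hz
    exact ZFSet.pair_mem_prod.2 ⟨hq, El.mem _⟩
  · exact ZFSet.mem_vonNeumann_of_subset F.gen.sub (hdom _ _ F.kC)

end SF.H56
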