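import Pool.Agent.H45.SF.GT

/-!
# MP_3b3fc8_lc, module MB: basic properties of morphisms
-/

open Order Set

namespace SF

namespace Mor

variable {B C : V} [IsCBA B] [IsCBA C] (h : Mor B C)

theorem mono' {x y : El B} (hxy : x ≤ y) : h x ≤ h y := by
  have h1 := h.inf x y
  rw [inf_eq_left.2 hxy] at h1
  calc h x = h.f x := rfl
    _ = h.f x ⊓ h.f y := h1
    _ ≤ h.f y := inf_le_right

theorem map_bot' : h ⊥ = ⊥ := by
  have h1 := h.sup ∅
  rw [sSup_empty, image_empty, sSup_empty] at h1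
  exact h1

theorem map_sup' (x y : El B) : h (x ⊔ y) = h x ⊔ h y := by
  have h1 := h.sup {x, y}
  rw [sSup_pair, image_pair, sSup_pair] at h1
  exact h1

theorem map_inf' (x y : El B) : h (x ⊓ y) = h x ⊓ h y := h.inf x y

theorem le_top' (x : El B) : h x ≤ h ⊤ := h.mono' le_top

theorem map_compl' (x : El B) : h xᶜ = (h x)ᶜ ⊓ h ⊤ := by
  have hs : h x ⊔ h xᶜ = h ⊤ := by rw [← h.map_sup', sup_compl_eq_top]
  have hi : h x ⊓ h xᶜ = ⊥ := by rw [← h.map_inf', inf_compl_eq_bot, h.map_bot']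
  apply le_antisymm
  · refine le_inf ?_ (h.le_top' _)
    rw [le_compl_iff_disjoint_right, disjoint_iff, inf_comm]
    exact hi
  · rw [← hs, inf_sup_left, compl_inf_eq_bot, bot_sup_eq]
    exact inf_le_right

theorem map_sdiff' (x y : El B) : h (x \ y) = h x \ h y := by
  rw [_root_.sdiff_eq, _root_.sdiff_eq, h.map_inf', h.map_compl']
  apply le_antisymm
  · exact inf_le_inf_left _ inf_le_left
  · exact le_inf inf_le_left (le_inf inf_le_right (inf_le_left.trans (h.le_top' _)))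

theorem map_iSup' {ι : Type 1} (f : ι → El B) : h (⨆ i, f i) = ⨆ i, h (f i) := by
  have h1 := h.sup (range f)
  rw [← range_comp] at h1
  exact h1

theorem map_iInf' {ι : Type 1} (f : ι → El B) : h (⨅ i, f i) = (⨅ i, h (f i)) ⊓ h ⊤ := by
  have h0 : (⨅ i, f i) = (⨆ i, (f i)ᶜ)ᶜ := by rw [compl_iSup]; simp
  apply le_antisymm
  · exact le_inf (le_iInf fun i => h.mono' (iInf_le _ i)) (h.le_top' _)
  · have h1 : ((⨅ i, h (f i)) ⊓ h ⊤) ⊓ h (⨆ i, (f i)ᶜ) = ⊥ := by
      rw [h.map_iSup', inf_iSup_eq]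
      refine iSup_eq_bot.2 fun i => ?_
      rw [h.map_compl', eq_bot_iff]
      calc (⨅ i, h (f i)) ⊓ h ⊤ ⊓ ((h (f i))ᶜ ⊓ h ⊤)
          ≤ h (f i) ⊓ (h (f i))ᶜ :=
            inf_le_inf (inf_le_left.trans (iInf_le _ i)) inf_le_left
        _ = ⊥ := inf_compl_eq_bot
        _ ≤ ⊥ := le_rfl
    rw [h0, h.map_compl']
    refine le_inf ?_ inf_le_right
    rw [le_compl_iff_disjoint_right, disjoint_iff]
    exact h1

end Mor

theorem mb : T_MB := fun _ _ _ _ h =>
  ⟨fun _ _ hxy => h.mono' hxy, h.map_bot', h.map_sup', h.map_compl', h.map_sdiff',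
    fun _ f => h.map_iSup' f, fun _ f => h.map_iInf' f⟩

end SF
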