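import Pool.Agent.H56.SF.MB

/-!
# MP_3b3fc8_lc, module MP: the projection of a morphism
-/

open Order Set

namespace SF

namespace Mor

variable {B C : V} [IsCBA B] [IsCBA C] (h : Mor B C)

theorem le_map_proj {c : El C} (hc : c ≤ h ⊤) : c ≤ h (h.proj c) := by
  have h1 : h.proj c = ⨅ b : {b : El B // c ≤ h b}, b.1 := by
    rw [proj, sInf_eq_iInf']; rfl
  rw [h1, h.map_iInf']
  exact le_inf (le_iInf fun b => b.2) hc

theorem proj_le_iff {c : El C} (hc : c ≤ h ⊤) {b : El B} : h.proj c ≤ b ↔ c ≤ h b :=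
  ⟨fun hb => (h.le_map_proj hc).trans (h.mono' hb), fun hb => sInf_le hb⟩

theorem proj_mono {c c' : El C} (hcc : c ≤ c') (hc : c' ≤ h ⊤) : h.proj c ≤ h.proj c' :=
  (h.proj_le_iff (hcc.trans hc)).2 (hcc.trans (h.le_map_proj hc))

theorem proj_eq_bot_iff {c : El C} (hc : c ≤ h ⊤) : h.proj c = ⊥ ↔ c = ⊥ := by
  rw [← le_bot_iff, h.proj_le_iff hc, h.map_bot', le_bot_iff]

theorem proj_inf_map {c : El C} (hc : c ≤ h ⊤) (b : El B) :
    h.proj (c ⊓ h b) = h.proj c ⊓ b := by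
  apply eq_of_forall_ge_iff
  intro x
  rw [h.proj_le_iff (inf_le_left.trans hc)]
  have h1 : h.proj c ⊓ b ≤ x ↔ h.proj c ≤ x ⊔ bᶜ := by
    rw [← himp_eq]; exact le_himp_iff.symm
  rw [h1, h.proj_le_iff hc, h.map_sup', h.map_compl']
  constructor
  · intro hx
    calc c = c ⊓ (h b ⊔ (h b)ᶜ) := by rw [sup_compl_eq_top, inf_top_eq]
      _ = (c ⊓ h b) ⊔ (c ⊓ (h b)ᶜ) := inf_sup_left _ _ _
      _ ≤ h x ⊔ ((h b)ᶜ ⊓ h ⊤) :=
        sup_le_sup hx (le_inf inf_le_right (inf_le_left.trans hc))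
  · intro hx
    calc c ⊓ h b ≤ (h x ⊔ ((h b)ᶜ ⊓ h ⊤)) ⊓ h b := inf_le_inf_right _ hx
      _ = (h x ⊓ h b) ⊔ (((h b)ᶜ ⊓ h ⊤) ⊓ h b) := inf_sup_right _ _ _
      _ ≤ h x ⊔ ⊥ := by
        refine sup_le_sup inf_le_left ?_
        calc ((h b)ᶜ ⊓ h ⊤) ⊓ h b ≤ (h b)ᶜ ⊓ h b := inf_le_inf_right _ inf_le_left
          _ = ⊥ := compl_inf_eq_bot
          _ ≤ ⊥ := le_rfl
      _ = h x := sup_bot_eq _

theorem proj_iSup {ι : Type 1} (f : ι → El C) (hf : ∀ i, f i ≤ h ⊤) :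
    h.proj (⨆ i, f i) = ⨆ i, h.proj (f i) := by
  apply eq_of_forall_ge_iff
  intro x
  rw [h.proj_le_iff (iSup_le hf), iSup_le_iff, iSup_le_iff]
  exact forall_congr' fun i => (h.proj_le_iff (hf i)).symm

theorem proj_map (b : El B) : h.proj (h b) = b ⊓ h.proj (h ⊤) := by
  have h1 := h.proj_inf_map (c := h ⊤) le_rfl b
  rw [inf_eq_right.2 (h.le_top' b)] at h1
  rw [h1, inf_comm]

theorem map_eq_bot_iff (b : El B) : h b = ⊥ ↔ b ⊓ h.proj (h ⊤) = ⊥ := by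
  rw [← h.proj_map, h.proj_eq_bot_iff (h.le_top' b)]

end Mor

theorem mp : T_MP := fun _ _ _ _ h =>
  ⟨fun _ _ hc => h.proj_le_iff hc, fun _ hc => h.le_map_proj hc,
    fun _ _ hcc hc => h.proj_mono hcc hc, fun _ hc => h.proj_eq_bot_iff hc,
    fun _ b hc => h.proj_inf_map hc b, fun _ f hf => h.proj_iSup f hf,
    fun b => h.proj_map b, fun b => h.map_eq_bot_iff b⟩

end SF
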