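import Pool.Agent.H72.SF.XT

/-!
# MP_3b3fc8_lc, module X3: guessing at unboundedly many places
-/

set_option linter.unusedVariables false

open Ordinal Cardinal Order Set
open scoped ZFSet

namespace SF.H56

open SF

/-- the elements of `v 0` which are below `v 1` or disjoint from `v 1` -/
theorem x3_tm : Tm ZFm (fun _ v => (v 0).sep fun d => d ⊆ v 1 ∨ d ∩ v 1 = ∅) :=
  (Tm.sep (R := fun _ v => v 0 ⊆ v 2 ∨ v 0 ∩ v 2 = ∅) (f := fun _ v => v 0)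
    ((Dfb.subset (Tm.var 0) (Tm.var 2)).or
      (Dfb.eq (Tm.inter (Tm.var 0) (Tm.var 2)) Tm.empty)) (Tm.var 0)).congr fun _ _ _ _ => rfl

/-- the elements of `v 0` which are disjoint from `v 1` are below `v 2` -/
theorem x3_dfb : Dfb ZFm (fun _ v => ∀ d ∈ v 0, d ∩ v 1 = ∅ → d ⊆ v 2) :=
  (Dfb.ball (R := fun _ v => v 0 ∩ v 2 = ∅ → v 0 ⊆ v 3) (f := fun _ v => v 0) ktr_zfm (Tm.var 0)
    ((Dfb.eq (Tm.inter (Tm.var 0) (Tm.var 2)) Tm.empty).imp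
      (Dfb.subset (Tm.var 0) (Tm.var 3)))).congr fun _ _ _ _ => Iff.rfl

section
variable {B : V} [IsCBA B] {N' N : V} {c : El B} {σ : V → V → El B}

theorem x3_le (m : BMap N' N c σ) (x y : V) : σ x y ≤ c := by
  by_cases h : σ x y = ⊥
  · rw [h]; exact bot_le
  · have h1 := (m.dom x y h).1
    rw [← m.tot x h1]
    exact le_iSup (fun y => σ x y) y

theorem x3_comp (hAP : T_AP) (np : NP N' N) (m : BMap N' N c σ) (hc : c ≠ ⊥) {z' y y2 : V}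
    (h : σ z' (ZFSet.pair y y2) = c) : ∃ x x2, z' = ZFSet.pair x x2 ∧ σ x y = c ∧ σ x2 y2 = c := by
  obtain ⟨-, h1, -⟩ := hAP B N' N c σ np m hc
  obtain ⟨x, -, x2, -, rfl, h2⟩ := h1 z' y y2 (by rw [h]; exact hc)
  rw [h] at h2
  exact ⟨x, x2, rfl, le_antisymm (x3_le m _ _) (h2.trans inf_le_left),
    le_antisymm (x3_le m _ _) (h2.trans inf_le_right)⟩

theorem x3_AM (hAM : T_AM) (np : NP N' N) (m : BMap N' N c σ) (hc : c ≠ ⊥) {x y x2 y2 : V}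
    (h : σ x y = c) (h2 : σ x2 y2 = c) : (x ∈ x2 ↔ y ∈ y2) := by
  refine (hAM B N' N c σ np m x y x2 y2 ?_).1
  rw [h, h2, inf_idem]
  exact hc

theorem x3_inf (hc : c ≠ ⊥) (s : Finset (V × V)) (h : ∀ q ∈ s, σ q.1 q.2 = c) :
    c ≤ s.inf (fun q => σ q.1 q.2) ∧ (s.inf fun q => σ q.1 q.2) ≠ ⊥ := by
  have h1 : c ≤ s.inf (fun q => σ q.1 q.2) := Finset.le_inf fun q hq => (h q hq).ge
  exact ⟨h1, fun h2 => hc (le_bot_iff.1 (h2 ▸ h1))⟩

open Classical in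
/-- `G'` contains `x` or the complement of `x` -/
theorem x3_dec (hAM : T_AM) (hTR : T_TR) (hTF : T_TF) (hAD : T_AD) (np : NP N' N)
    (m : BMap N' N c σ) (hc : c ≠ ⊥) {C' C G' x x4 : V} [hC : IsCBA C] (e : El C)
    (h1 : σ C' C = c) (hx : σ x e.val = c) (hx4 : σ x4 (eᶜ).val = c) (hG : NGen N' C' G')
    (hn : x ∉ G') : x4 ∈ G' := by
  have hxC : x ∈ C' := (x3_AM hAM np m hc hx h1).2 e.mem
  have hx4C : x4 ∈ C' := (x3_AM hAM np m hc hx4 h1).2 (eᶜ).mem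
  -- the dense set
  let s1 : Finset (V × V) := {(C', C), (x, e.val)}
  have hs1 : ∀ q ∈ s1, σ q.1 q.2 = c := by
    intro q hq
    simp only [s1, Finset.mem_insert, Finset.mem_singleton] at hq
    rcases hq with rfl | rfl <;> assumption
  obtain ⟨h2, h3⟩ := hTF _ x3_tm B N' N c σ np m s1 (x3_inf hc s1 hs1).2
    (fun i => if i = 0 then (C', C) else (x, e.val)) (fun i => by
      by_cases hi : i = 0
      · rw [if_pos hi]; exact Finset.mem_insert_self _ _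
      · rw [if_neg hi]; exact Finset.mem_insert_of_mem (Finset.mem_singleton_self _))
  have h4 : c ≤ σ (C'.sep fun d => d ⊆ x ∨ d ∩ x = ∅) (C.sep fun d => d ⊆ e.val ∨ d ∩ e.val = ∅) :=
    (x3_inf hc s1 hs1).1.trans h3
  have h5 : (C'.sep fun d => d ⊆ x ∨ d ∩ x = ∅) ∈ N' := h2
  have h6 : σ (C'.sep fun d => d ⊆ x ∨ d ∩ x = ∅)
      (C.sep fun d => d ⊆ e.val ∨ d ∩ e.val = ∅) ≠ ⊥ := fun h => hc (le_bot_iff.1 (h ▸ h4))
  obtain ⟨-, h7⟩ := hAD B N' N c σ np m hc C' C h1 _ _ h6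
  obtain ⟨d, hd, hdG⟩ := hG.meets _ h5 (fun z hz => (ZFSet.mem_sep.1 hz).1) (h7.2 (by
    intro z hz hz0
    by_cases h8 : (⟨z, hz⟩ : El C) ⊓ e = ⊥
    · refine ⟨z, ZFSet.mem_sep.2 ⟨hz, Or.inr ?_⟩, hz0, fun _ h => h⟩
      have h9 : ((⟨z, hz⟩ : El C) ⊓ e).val = ∅ := by rw [h8]; exact El.bot_val
      rw [El.inf_val] at h9
      exact h9
    · refine ⟨((⟨z, hz⟩ : El C) ⊓ e).val, ZFSet.mem_sep.2 ⟨El.mem _, Or.inl ?_⟩, ?_, ?_⟩
      · exact El.le_iff.1 inf_le_right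
      · intro h9
        refine h8 (El.ext ?_)
        rw [h9, El.bot_val]
      · exact El.le_iff.1 (inf_le_left : (⟨z, hz⟩ : El C) ⊓ e ≤ ⟨z, hz⟩)))
  obtain ⟨hdC, hd2⟩ := ZFSet.mem_sep.1 hd
  rcases hd2 with hd2 | hd2
  · exact absurd (hG.up d hdG x hxC hd2) hn
  -- elements disjoint from `x` are below the complement
  let s2 : Finset (V × V) := {(C', C), (x, e.val), (x4, (eᶜ).val)}
  have hs2 : ∀ q ∈ s2, σ q.1 q.2 = c := by
    intro q hq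
    simp only [s2, Finset.mem_insert, Finset.mem_singleton] at hq
    rcases hq with rfl | rfl | rfl <;> assumption
  have h10 := hTR _ x3_dfb B N' N c σ np m s2 (x3_inf hc s2 hs2).2
    (fun i => if i = 0 then (C', C) else if i = 1 then (x, e.val) else (x4, (eᶜ).val)) (fun i => by
      by_cases hi : i = 0
      · rw [if_pos hi]; simp [s2]
      · rw [if_neg hi]
        by_cases hi1 : i = 1
        · rw [if_pos hi1]; simp [s2]
        · rw [if_neg hi1]; simp [s2])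
  have h11 : (∀ d ∈ C', d ∩ x = ∅ → d ⊆ x4) ↔ ∀ d ∈ C, d ∩ e.val = ∅ → d ⊆ (eᶜ).val := h10
  refine hG.up d hdG x4 hx4C (h11.2 ?_ d hdC hd2)
  intro z hz hz2
  have h12 : (⟨z, hz⟩ : El C) ⊓ e = ⊥ := by
    apply El.ext
    rw [El.inf_val, El.bot_val]
    exact hz2
  exact El.le_iff.1 (le_compl_iff_disjoint_right.2 (disjoint_iff.2 h12) :
    (⟨z, hz⟩ : El C) ≤ eᶜ)

end

theorem x3_mkEl {C : V} [IsCBA C] (e : El C) : mkEl C e.val = e := by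
  unfold mkEl
  rw [dif_pos e.mem]

/-- X3. Guessing at unboundedly many places. -/
theorem x3 (hX1 : T_X1) (hAH : T_AH) (hAF : T_AF) (hAM : T_AM) (hAP : T_AP) (hAU : T_AU)
    (hTR : T_TR) (hTF : T_TF) (hAD : T_AD) : T_X3 := by
  intro C hG r c0 hc0 β hβ
  obtain ⟨c, N', N, σ, w, C', G', s', hc, hcc, np, m, hw, hC', hs', hGen, com, sc⟩ := hX1 C hG c0 hc0
    (ZFSet.pair β.toZFSet (ZFSet.pair HC (ZFSet.pair (resS w1 fun x => (r x.rank).val)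
      (resS C.B fun x => ((mkEl C.B x)ᶜ).val))))
  obtain ⟨β', s1, -, hβ', hs1⟩ := x3_comp hAP np m hc hs'
  obtain ⟨H', s2, -, hH', hs2⟩ := x3_comp hAP np m hc hs1
  obtain ⟨r', k', -, hr', hk'⟩ := x3_comp hAP np m hc hs2
  obtain ⟨-, -, h1⟩ := hAH C.B N' N c σ np m hc H' hH'
  obtain ⟨δ, rfl, -, hδ, -, hkn, -⟩ := h1 w hw
  have hβ1 : β.toZFSet ∈ w1 := Ordinal.toZFSet_mem_toZFSet_iff.2 hβ
  have hβ2 : β' ∈ δ.toZFSet := (x3_AM hAM np m hc hβ' hw).2 hβ1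
  obtain ⟨α, hα, rfl⟩ := Ordinal.mem_toZFSet_iff.1 hβ2
  have hαβ : α = β := by
    obtain ⟨-, -, -, h2, -⟩ := hAU C.B N' N c σ np m hc _ _ hβ'
    exact Ordinal.toZFSet_injective (h2 α.toZFSet (by rw [(hkn α hα).2]; exact hc))
  subst hαβ
  refine ⟨δ, hα, hδ, ?_⟩
  have hr'N : r' ∈ N' := (m.dom r' _ (by rw [hr']; exact hc)).1
  have h3 := sc r' hr'N
  have hS : ev δ.toZFSet r' G' ⊆ δ.toZFSet := fun z hz => (ZFSet.mem_sep.1 hz).1
  have h4 : c ≤ gval C r δ := by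
    unfold gval
    refine le_trans ?_ (le_iSup (fun S : {S : V // S ⊆ δ.toZFSet} =>
      C.g (acc δ.toZFSet S.1) ⊓ ⨅ β : Set.Iio δ, open Classical in
        if β.1.toZFSet ∈ S.1 then r β.1 else (r β.1)ᶜ) ⟨_, hS⟩)
    refine le_inf h3 (le_iInf fun γ => ?_)
    obtain ⟨γ, hγ⟩ := γ
    have hγ1 : γ.toZFSet ∈ δ.toZFSet := Ordinal.toZFSet_mem_toZFSet_iff.2 hγ
    have hγw : γ.toZFSet ∈ w1 := Ordinal.toZFSet_mem_toZFSet_iff.2 (lt_trans hγ hδ)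
    have hγk := (hkn γ hγ).2
    obtain ⟨-, ρ, hρN, hρ, -, hρ2⟩ := hAF C.B N' N c σ np m hc r' _ δ.toZFSet w1 hr' hw
      (fun y hy => ⟨_, pair_mem_resS.2 ⟨hy, rfl⟩, fun z hz => (pair_mem_resS.1 hz).2⟩)
      γ.toZFSet hγ1
    have h5 : σ ρ (r γ).val = c := by
      refine le_antisymm (x3_le m _ _) ?_
      have h6 := hρ2 γ.toZFSet (r γ).val (pair_mem_resS.2 ⟨hγw, by rw [Ordinal.rank_toZFSet]⟩)
      rwa [hγk] at h6
    dsimp only
    split_ifs with h7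
    · unfold ev at h7
      obtain ⟨-, g, hg, hg2⟩ := ZFSet.mem_sep.1 h7
      have h8 : g = ρ := (hρ g).1 hg2
      subst h8
      have h9 := com g hg (r γ).val
      rwa [h5, x3_mkEl] at h9
    · have hn : ρ ∉ G' := fun h8 => h7 (ZFSet.mem_sep.2 ⟨hγ1, ρ, h8, (hρ ρ).2 rfl⟩)
      have hρC : ρ ∈ C' := (x3_AM hAM np m hc h5 hC').2 (r γ).mem
      obtain ⟨-, x4, -, -, -, h8⟩ := hAF C.B N' N c σ np m hc k' _ C' C.B hk' hC'
        (fun y hy => ⟨_, pair_mem_resS.2 ⟨hy, rfl⟩, fun z hz => (pair_mem_resS.1 hz).2⟩) ρ hρC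
      have h9 : σ x4 ((r γ)ᶜ).val = c := by
        refine le_antisymm (x3_le m _ _) ?_
        have h10 := h8 (r γ).val ((r γ)ᶜ).val (pair_mem_resS.2 ⟨(r γ).mem, by rw [x3_mkEl]⟩)
        rwa [h5] at h10
      have h11 := x3_dec hAM hTR hTF hAD np m hc (r γ) hC' h5 h9 hGen hn
      have h12 := com x4 h11 ((r γ)ᶜ).val
      rwa [h9, x3_mkEl] at h12
  exact fun h => hc (le_bot_iff.1 (h ▸ le_inf hcc h4))

end SF.H56
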