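import Pool.Agent.H72.SF.XT

/-!
# MP_3b3fc8_lc, module XB: hereditarily countable sets
-/

open Ordinal Cardinal Order Set
open scoped ZFSet

namespace SF.H56

open SF

theorem xb_mem {x : V} : x ∈ HC ↔ x.rank < Ordinal.omega.{0} 1 ∧
    ∃ t : V, t.IsTransitive ∧ (t : Set V).Countable ∧ x ⊆ t := by
  unfold HC
  rw [ZFSet.mem_sep, ZFSet.mem_vonNeumann]

theorem xb_mono {x y : V} (h : x ⊆ y) (hy : (y : Set V).Countable) : (x : Set V).Countable :=
  hy.mono fun _ hz => h hz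

theorem xb_rank {x : V} (hc : (x : Set V).Countable)
    (h : ∀ y ∈ x, y.rank < Ordinal.omega.{0} 1) : x.rank < Ordinal.omega.{0} 1 := by
  have hl : IsSuccLimit (Ordinal.omega.{0} 1) := Cardinal.isSuccLimit_omega 1
  rcases (x : Set V).eq_empty_or_nonempty with h0 | h0
  · have h1 : x = ∅ := by
      rw [ZFSet.eq_empty]
      intro y hy
      have : y ∈ (x : Set V) := hy
      rw [h0] at this
      exact this
    rw [h1, ZFSet.rank_empty]
    exact hl.bot_lt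
  · obtain ⟨g, hg⟩ := hc.exists_eq_range h0
    have hg1 : ∀ n, g n ∈ x := fun n => by
      have : g n ∈ (x : Set V) := by rw [hg]; exact mem_range_self n
      exact this
    have h1 : x.rank ≤ ⨆ n : ℕ, succ (g n).rank := by
      refine ZFSet.rank_le_iff.2 fun y hy => ?_
      have hy1 : y ∈ (x : Set V) := hy
      rw [hg] at hy1
      obtain ⟨n, rfl⟩ := hy1
      exact (lt_succ _).trans_le (Ordinal.le_iSup (fun n : ℕ => succ (g n).rank) n)
    exact h1.trans_lt (Ordinal.iSup_lt_omega_one fun n => hl.succ_lt (h _ (hg1 n)))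

theorem xb_trans : HC.IsTransitive := by
  intro x hx y hy
  obtain ⟨h1, t, h2, h3, h4⟩ := xb_mem.1 hx
  exact xb_mem.2 ⟨(ZFSet.rank_lt_of_mem hy).trans h1, t, h2, h3, h2 _ (h4 hy)⟩

theorem xb_ctb {x : V} (hx : x ∈ HC) : (x : Set V).Countable := by
  obtain ⟨h1, t, h2, h3, h4⟩ := xb_mem.1 hx
  exact xb_mono h4 h3

theorem xb_in {x : V} (hc : (x : Set V).Countable) (h : x ⊆ HC) : x ∈ HC := by
  have h1 : ∀ y : V, ∃ t : V, y ∈ x → t.IsTransitive ∧ (t : Set V).Countable ∧ y ⊆ t := by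
    intro y
    by_cases hy : y ∈ x
    · obtain ⟨-, t, ht⟩ := xb_mem.1 (h hy)
      exact ⟨t, fun _ => ht⟩
    · exact ⟨∅, fun h2 => absurd h2 hy⟩
  choose t ht using h1
  have hm : ∀ z : V, z ∈ x ∪ (⋃₀ (imS x t) : ZFSet) ↔ z ∈ x ∨ ∃ y ∈ x, z ∈ t y := by
    intro z
    rw [ZFSet.mem_union, ZFSet.mem_sUnion]
    refine or_congr_right ?_
    constructor
    · rintro ⟨w, hw, hz⟩
      obtain ⟨y, hy, rfl⟩ := mem_imS.1 hw
      exact ⟨y, hy, hz⟩
    · rintro ⟨y, hy, hz⟩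
      exact ⟨t y, mem_imS.2 ⟨y, hy, rfl⟩, hz⟩
  refine xb_mem.2 ⟨xb_rank hc fun y hy => (xb_mem.1 (h hy)).1, x ∪ (⋃₀ (imS x t) : ZFSet),
    ?_, ?_, ?_⟩
  · intro z hz w hw
    rw [hm] at hz ⊢
    rcases hz with hz | ⟨y, hy, hz⟩
    · exact Or.inr ⟨z, hz, (ht z hz).2.2 hw⟩
    · exact Or.inr ⟨y, hy, (ht y hy).1 _ hz hw⟩
  · have h2 : ((x ∪ (⋃₀ (imS x t) : ZFSet) : V) : Set V) ⊆
        (x : Set V) ∪ ⋃ y ∈ (x : Set V), ((t y : V) : Set V) := by
      intro z hz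
      have hz1 : z ∈ x ∪ (⋃₀ (imS x t) : ZFSet) := hz
      rw [hm] at hz1
      rcases hz1 with hz1 | ⟨y, hy, hz1⟩
      · exact Or.inl hz1
      · exact Or.inr (mem_biUnion (show y ∈ (x : Set V) from hy) hz1)
    exact (hc.union (hc.biUnion fun y hy => (ht y hy).2.1)).mono h2
  · intro z hz
    exact (hm z).2 (Or.inl hz)

theorem xb_sub {x y : V} (h : x ⊆ y) (hy : y ∈ HC) : x ∈ HC :=
  xb_in (xb_mono h (xb_ctb hy)) fun _ hz => xb_trans _ hy (h hz)

theorem xb_upair {x y : V} (hx : x ∈ HC) (hy : y ∈ HC) : ({x, y} : V) ∈ HC := by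
  refine xb_in ?_ ?_
  · have h1 : (({x, y} : V) : Set V) ⊆ ({x, y} : Set V) := by
      intro z hz
      have hz1 : z ∈ ({x, y} : V) := hz
      rw [ZFSet.mem_pair] at hz1
      exact hz1
    exact ((Set.finite_singleton y).insert x).countable.mono h1
  · intro z hz
    rw [ZFSet.mem_pair] at hz
    rcases hz with rfl | rfl <;> assumption

theorem xb_pair {x y : V} (hx : x ∈ HC) (hy : y ∈ HC) : ZFSet.pair x y ∈ HC := by
  unfold ZFSet.pair
  refine xb_upair ?_ (xb_upair hx hy)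
  rw [← ZFSet.pair_eq_singleton]
  exact xb_upair hx hx

theorem xb_Iio {α : Ordinal.{0}} (h : α < Ordinal.omega.{0} 1) : (Iio α).Countable := by
  rw [← Cardinal.le_aleph0_iff_set_countable, Cardinal.mk_Iio_ordinal]
  have h1 : α.card < ℵ₁ := by
    rw [← Cardinal.lt_ord, Cardinal.ord_aleph]
    exact h
  rw [← Cardinal.succ_aleph0, Order.lt_succ_iff] at h1
  have h2 := Cardinal.lift_le.{1, 0}.2 h1
  rwa [Cardinal.lift_aleph0] at h2

theorem xb_ord_ctb {α : Ordinal.{0}} (h : α < Ordinal.omega.{0} 1) :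
    ((α.toZFSet : V) : Set V).Countable := by
  rw [Ordinal.coe_toZFSet]
  exact (xb_Iio h).image _

theorem xb_ord {α : Ordinal.{0}} (h : α < Ordinal.omega.{0} 1) : α.toZFSet ∈ HC := by
  refine xb_mem.2 ⟨?_, α.toZFSet, (ZFSet.isOrdinal_toZFSet α).isTransitive, xb_ord_ctb h,
    fun _ h => h⟩
  rw [Ordinal.rank_toZFSet]
  exact h

theorem xb_w1 : w1 ⊆ HC := by
  intro x hx
  unfold w1 at hx
  obtain ⟨α, hα, rfl⟩ := Ordinal.mem_toZFSet_iff.1 hx
  exact xb_ord hα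

theorem xb_P0 : P0 ⊆ HC := by
  intro q hq
  unfold P0 at hq
  obtain ⟨-, α, S, hα, hS, rfl⟩ := ZFSet.mem_sep.1 hq
  have : Countable (Iio α) := (xb_Iio hα).to_subtype
  refine xb_in ?_ ?_
  · have h1 : ((ZFSet.range fun β : Set.Iio α => ZFSet.pair β.1.toZFSet (S β.1) : V) : Set V) ⊆
        Set.range fun β : Set.Iio α => ZFSet.pair β.1.toZFSet (S β.1) := by
      intro z hz
      have hz1 : z ∈ (ZFSet.range fun β : Set.Iio α => ZFSet.pair β.1.toZFSet (S β.1) : V) := hz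
      rwa [ZFSet.mem_range] at hz1
    exact (countable_range _).mono h1
  · intro z hz
    rw [ZFSet.mem_range] at hz
    obtain ⟨β, rfl⟩ := hz
    have h2 : β.1.toZFSet ∈ HC := xb_ord (lt_trans β.2 hα)
    refine xb_pair h2 (xb_in (hS β.1 β.2).1 fun y hy => ?_)
    exact xb_sub ((hS β.1 β.2).2 y hy) h2

theorem xb_onto {x : V} (hx : x ∈ HC) (h0 : x ≠ ∅) : ∃ f ∈ HC, Onto f om x := by
  have h1 : (x : Set V).Nonempty := by
    rw [Set.nonempty_iff_ne_empty]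
    intro h2
    refine h0 ?_
    rw [ZFSet.eq_empty]
    intro y hy
    have : y ∈ (x : Set V) := hy
    rw [h2] at this
    exact this
  obtain ⟨g, hg⟩ := (xb_ctb hx).exists_eq_range h1
  have hg1 : ∀ n, g n ∈ x := fun n => by
    have : g n ∈ (x : Set V) := by rw [hg]; exact mem_range_self n
    exact this
  have hF : ∀ z : V, ∃ y : V, ∀ n : ℕ, z = nS n → y = g n := by
    intro z
    by_cases h : ∃ n : ℕ, z = nS n
    · obtain ⟨n, rfl⟩ := h
      exact ⟨g n, fun m hm => by rw [nS_inj.1 hm]⟩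
    · exact ⟨∅, fun n hn => absurd ⟨n, hn⟩ h⟩
  choose F hF using hF
  have hFn : ∀ n : ℕ, F (nS n) = g n := fun n => hF _ n rfl
  refine ⟨resS om F, ?_, ?_, ?_⟩
  · refine xb_in ?_ ?_
    · have h2 : ((resS om F : V) : Set V) ⊆ (fun z => ZFSet.pair z (F z)) '' ((om : V) : Set V) := by
        intro z hz
        have hz1 : z ∈ resS om F := hz
        obtain ⟨y, hy, rfl⟩ := mem_resS.1 hz1
        exact ⟨y, hy, rfl⟩
      exact ((xb_ord_ctb Ordinal.omega0_lt_omega_one).image _).mono h2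
    · intro z hz
      obtain ⟨y, hy, rfl⟩ := mem_resS.1 hz
      obtain ⟨n, rfl⟩ := mem_om.1 hy
      refine xb_pair (xb_trans _ (xb_ord Ordinal.omega0_lt_omega_one) hy) ?_
      rw [hFn]
      exact xb_trans _ hx (hg1 n)
  · refine isFunc_resS _ _ _ fun y hy => ?_
    obtain ⟨n, rfl⟩ := mem_om.1 hy
    rw [hFn]
    exact hg1 n
  · intro b hb
    have hb1 : b ∈ (x : Set V) := hb
    rw [hg] at hb1
    obtain ⟨n, rfl⟩ := hb1
    exact ⟨nS n, mem_om.2 ⟨n, rfl⟩, pair_mem_resS.2 ⟨mem_om.2 ⟨n, rfl⟩, (hFn n).symm⟩⟩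

/-- XB. Hereditarily countable sets. -/
theorem xb : T_XB := by
  refine ⟨xb_trans, fun x hc h => xb_in hc h, fun x hx => xb_ctb hx,
    fun x hx y hy => xb_pair hx hy, xb_w1, xb_P0, fun α hα => ?_, fun x hx => ?_⟩
  · have h1 := (xb_mem.1 hα).1
    rwa [Ordinal.rank_toZFSet] at h1
  · by_cases h0 : x = ∅
    · exact Or.inl h0
    · exact Or.inr (xb_onto hx h0)

end SF.H56
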